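import Pool.Agent.Helper62.CX.Data
import Pool.Agent.Helper36.CX.FewG
import Pool.Agent.Helper4.BX.W

/-!
# Preparations for `C_FewR`
-/

set_option autoImplicit false

open Polynomial Matrix Finset NumberField IsDedekindDomain

namespace Pool.Agent.Helper4.CX

open Pool.Agent.Helper62.BM Pool.Agent.Helper62.BX Pool.Agent.Helper62.CX
  Pool.Agent.Helper90.BM Pool.Agent.Helper4.BM
open Pool.Agent.Helper62.BW (dt coeff_dt map_dt sep_clear sep_map map_ne W_Irr W_Strong W_Tr W_FewG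
  Fam IrrF Dat)
open Pool.Agent.Helper4.BW (map_evalRingHom)

section maps

variable {A B : Type} [CommRing A] [CommRing B] [IsDomain A] [IsDomain B] (φ : A →+* B)

theorem genC_map (hφ : Function.Injective φ) {na nb : ℕ} {a b : A[X][X]} (h : GenC na nb a b) :
    GenC na nb (a.map (mapRingHom φ)) (b.map (mapRingHom φ)) := by
  obtain ⟨h1, h2, h3, h4, h5⟩ := h
  refine ⟨h1.map _, h2.map _, by rw [h1.natDegree_map, h3], by rw [h2.natDegree_map, h4], ?_⟩
  obtain ⟨u, v, r, hr, huv⟩ := sep_clear (a * b) h5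
  have h6 := sep_map ((algebraMap B[X] (FractionRing B[X])).comp (mapRingHom φ)) (a * b) u v r huv (by
    intro h0
    rw [RingHom.comp_apply] at h0
    have h5 := (IsFractionRing.injective B[X] (FractionRing B[X])) (h0.trans (map_zero _).symm)
    exact hr (Polynomial.map_injective φ hφ (by rw [Polynomial.map_zero]; exact h5)))
  rwa [← Polynomial.map_map, Polynomial.map_mul] at h6

theorem famC_map (hφ : Function.Injective φ) {m r na nb N : ℕ} {a b : A[X][X]} {D : Cdat A N}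
    {P S : Fin N → A[X][X]} (h : FamC m r na nb a b D P S) :
    FamC m r na nb (a.map (mapRingHom φ)) (b.map (mapRingHom φ)) (D.map φ)
      (fun l => (P l).map (mapRingHom φ)) (fun l => (S l).map (mapRingHom φ)) := by
  obtain ⟨h1, h2, h3, h4⟩ := h
  refine ⟨genC_map φ hφ h1, h2, ?_, ?_⟩
  · rw [Pool.Agent.Helper62.CX.map_W]
    exact Pool.Agent.Helper36.CX.map_relC φ h3
  · show D.M.map (mapRingHom φ) = _
    rw [h4]
    ext1 i j
    rw [Matrix.map_apply, coe_mapRingHom, Pool.Agent.Helper36.CX.map_Mc]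

end maps

section ring

theorem exists_ringC {R L : Type} [CommRing R] [IsDomain R] [Field L] [Algebra R L] (a b : R[X][X])
    (t₀ x₀ : L) (a₁ b₁ : L[X]) (hN : NodeC (a.map (mapRingHom (algebraMap R L)))
      (b.map (mapRingHom (algebraMap R L))) t₀ x₀ a₁ b₁) :
    ∃ (A : Subalgebra R L), A.FG ∧ ∃ (t x : A) (a' b' : A[X]),
      NodeC (a.map (mapRingHom (algebraMap R A))) (b.map (mapRingHom (algebraMap R A)))
        t x a' b' := by
  classical
  set S : Finset L := {t₀, x₀} ∪ (a₁.coeffs ∪ b₁.coeffs) with hS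
  set A : Subalgebra R L := Algebra.adjoin R (S : Set _) with hA
  have hsub : ∀ y ∈ S, y ∈ A := fun y hy => Algebra.subset_adjoin hy
  have ht : t₀ ∈ A := hsub _ (by rw [hS]; simp)
  have hx : x₀ ∈ A := hsub _ (by rw [hS]; simp)
  have hfa : ∀ n, a₁.coeff n ∈ A := by
    intro n
    by_cases h : a₁.coeff n = 0
    · rw [h]; exact A.zero_mem
    · exact hsub _ (by
        rw [hS]
        exact Finset.mem_union_right _ (Finset.mem_union_left _ (coeff_mem_coeffs h)))
  have hfb : ∀ n, b₁.coeff n ∈ A := by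
    intro n
    by_cases h : b₁.coeff n = 0
    · rw [h]; exact A.zero_mem
    · exact hsub _ (by
        rw [hS]
        exact Finset.mem_union_right _ (Finset.mem_union_right _ (coeff_mem_coeffs h)))
  set ψ : A →+* L := (A.val : A →+* L) with hψ
  have hval : Function.Injective ψ := Subtype.val_injective
  obtain ⟨a', haa⟩ : ∃ f : A[X], f.map ψ = a₁ := by
    have h1 : a₁ ∈ Polynomial.lifts ψ := (Polynomial.lifts_iff_coeff_lifts a₁).2 fun n =>
      ⟨⟨a₁.coeff n, hfa n⟩, rfl⟩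
    exact (Polynomial.mem_lifts _).1 h1
  obtain ⟨b', hbb⟩ : ∃ f : A[X], f.map ψ = b₁ := by
    have h1 : b₁ ∈ Polynomial.lifts ψ := (Polynomial.lifts_iff_coeff_lifts b₁).2 fun n =>
      ⟨⟨b₁.coeff n, hfb n⟩, rfl⟩
    exact (Polynomial.mem_lifts _).1 h1
  have hFF : ∀ F : R[X][X], (F.map (mapRingHom (algebraMap R A))).map (mapRingHom ψ) =
      F.map (mapRingHom (algebraMap R L)) := by
    intro F
    rw [Polynomial.map_map, mapRingHom_comp]
    rfl
  obtain ⟨k1, k2, k3, k4, k5⟩ := hN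
  refine ⟨A, ⟨S, rfl⟩, ⟨t₀, ht⟩, ⟨x₀, hx⟩, a', b', ?_, ?_, ?_, ?_, ?_⟩
  · apply Polynomial.map_injective ψ hval
    rw [map_evalRingHom, hFF, Polynomial.map_mul, Polynomial.map_sub, Polynomial.map_X,
      Polynomial.map_C, haa]
    exact k1
  · apply Polynomial.map_injective ψ hval
    rw [map_evalRingHom, hFF, Polynomial.map_mul, Polynomial.map_sub, Polynomial.map_X,
      Polynomial.map_C, hbb]
    exact k2
  · have h1 : (a₁ * b₁).Separable := (separable_map _).1 k3
    rw [← haa, ← hbb, ← Polynomial.map_mul] at h1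
    set L' : FractionRing A →+* L := IsFractionRing.lift (K := FractionRing A) hval with hL
    have h3 : L'.comp (algebraMap A (FractionRing A)) = ψ := by
      ext x
      rw [RingHom.comp_apply, hL, IsFractionRing.lift_algebraMap]
    rw [← separable_map L', Polynomial.map_map, h3]
    exact h1
  · intro h
    apply k4
    have h1 := congrArg ψ h
    rw [map_zero, ← Polynomial.eval_map_apply, Polynomial.map_mul, haa, hbb] at h1
    exact h1
  · intro h
    apply k5
    have h1 := congrArg ψ h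
    rw [map_mul, map_mul, ← Polynomial.eval_map_apply, ← Polynomial.eval_map_apply,
      ← Polynomial.eval_map_apply, ← Polynomial.eval_map_apply, map_evalRingHom, map_evalRingHom,
      map_dt, map_dt, hFF, hFF, haa, hbb] at h1
    exact h1

end ring

section half

theorem YC_half (R : Type) [CommRing R] (p r g : ℕ) (hr : 0 < r) (hp : 2 * r ∣ p - 1)
    (a b : R[X]) (i j : Fin g) :
    YC p (r * ((p - 1) / (2 * r))) ((2 * r - r) * ((p - 1) / (2 * r))) g g a b i j =
      Yh p g (2 * g) (a * b) i (lo j) := by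
  obtain ⟨c, hc⟩ := hp
  have h1 : (p - 1) / (2 * r) = c := by
    rw [hc]
    exact Nat.mul_div_cancel_left _ (by omega)
  have h2 : (p - 1) / 2 = r * c := by
    rw [hc, mul_assoc]
    exact Nat.mul_div_cancel_left _ (by omega)
  have h3 : 2 * r - r = r := by omega
  unfold YC Yh
  rw [Matrix.of_apply, Matrix.of_apply, h1, h2, h3, mul_pow]
  rfl

/-- the symplectic summand -/
theorem fewHalf (hHalf : C_Half) (hIrrHalf : C_IrrHalf) (wIrr : W_Irr) (wStrong : W_Strong)
    (wTr : W_Tr) (wG : W_FewG) (m r na nb g d : ℕ) (hd : d = g) (hm : 2 * r = m) (hr : 0 < r)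
    (hg : 1 ≤ g) (hgn : 2 * g + 1 = na + nb)
    (A : Type) [CommRing A] [IsDomain A] [CharZero A] [Countable A]
    (a b : A[X][X]) (hgen : GenC na nb a b) (t₀ x₀ : A) (a₁ b₁ : A[X])
    (hnode : NodeC a b t₀ x₀ a₁ b₁) (L : Type) [Field L] [CharZero L] (ψ : A →+* L)
    (hψ : Function.Injective ψ)
    (hirr : IrrC L m r (2 * g) (a.map (mapRingHom ψ)) (b.map (mapRingHom ψ)))
    (G : MvPolynomial (Fin d × Fin d) A[X]) (hG0 : G ≠ 0) (ε : ℝ) (hε : 0 < ε) :
    ∃ (p₀ : ℕ) (a₀ : A), a₀ ≠ 0 ∧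
      ∀ (p : ℕ) [Fact p.Prime] (k : Type) [Field k] [CharP k p] (φ : A →+* k), p₀ ≤ p →
      m ∣ p - 1 → φ a₀ ≠ 0 → ∀ T : Finset k, (∀ t ∈ T, t ^ p = t ∧
        MvPolynomial.eval₂ ((evalRingHom t).comp (mapRingHom φ))
          (fun s : Fin d × Fin d =>
          (YC p (r * ((p - 1) / m)) ((m - r) * ((p - 1) / m)) d d
            (a.map (mapRingHom φ)) (b.map (mapRingHom φ)) s.1 s.2).eval t) G = 0) →
        (T.card : ℝ) ≤ ε * p := by
  subst hd hm
  obtain ⟨D, P, S, hFam, hOk⟩ := hHalf A na nb d hg hgn a b hgen t₀ x₀ a₁ b₁ hnode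
  have k1 := Pool.Agent.Helper4.BW.fam_map ψ hψ hFam
  have k2 := Pool.Agent.Helper62.BW.ok_inj D hOk ψ hψ
  have k0 := hIrrHalf L (2 * r) r d hr rfl hg _ _ hirr
  rw [← Polynomial.map_mul] at k0
  have k3 := wIrr L d hg _ _ _ _ k1 k2 k0
  have k4 := wStrong L d hg _ k2 k3
  have k5 := wTr A d D hOk L (FractionRing A) _ _ hψ
      (IsFractionRing.injective A (FractionRing A)) k4
  obtain ⟨p₀, a₀, ha₀, hfew⟩ := wG d hg A (a * b) D P S hFam hOk k5 G hG0 ε hε
  refine ⟨p₀, a₀, ha₀, ?_⟩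
  intro p _ k _ _ φ hp hmp hφ T hT
  refine hfew p k φ hp hφ T fun t ht => ⟨(hT t ht).1, ?_⟩
  rw [← (hT t ht).2]
  congr 1
  funext s
  rw [YC_half k[X] p r d hr hmp, Polynomial.map_mul]

end half

/-- Few zeros for every summand. -/
theorem fewr (hData : C_Data) (hStrong : C_Strong) (hTr : C_Tr) (hIrr : C_Irr) (hBil : C_Bil)
    (hG : C_FewG) (hHalf : C_Half) (hIrrHalf : C_IrrHalf) (wIrr : W_Irr) (wStrong : W_Strong)
    (wTr : W_Tr) (wG : W_FewG) (m r na nb N : ℕ) (hr : 0 < r) (hrm : r < m)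
    (hnd : ¬ m ∣ r * na + (m - r) * nb) (hN : 2 ≤ N) (hna : 1 ≤ na) (hnb : 1 ≤ nb)
    (hNn : N + 1 = na + nb)
    (A : Type) [CommRing A] [IsDomain A] [CharZero A] [Countable A]
    (a b : A[X][X]) (hgen : GenC na nb a b) (t₀ x₀ : A) (a₁ b₁ : A[X])
    (hnode : NodeC a b t₀ x₀ a₁ b₁) (L : Type) [Field L] [CharZero L] (ψ : A →+* L)
    (hψ : Function.Injective ψ)
    (hirr : IrrC L m r N (a.map (mapRingHom ψ)) (b.map (mapRingHom ψ)))
    (hor : 2 * r = m ∨ N = 2 ∨ Odd N ∨ NoBilC L m r N (a.map (mapRingHom ψ))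
      (b.map (mapRingHom ψ)))
    (G : MvPolynomial (Fin (dC m r na nb) × Fin (dC m r na nb)) A[X]) (hG0 : G ≠ 0)
    (ε : ℝ) (hε : 0 < ε) :
    ∃ (p₀ : ℕ) (a₀ : A), a₀ ≠ 0 ∧
      ∀ (p : ℕ) [Fact p.Prime] (k : Type) [Field k] [CharP k p] (φ : A →+* k), p₀ ≤ p →
      m ∣ p - 1 → φ a₀ ≠ 0 → ∀ T : Finset k, (∀ t ∈ T, t ^ p = t ∧
        MvPolynomial.eval₂ ((evalRingHom t).comp (mapRingHom φ))
          (fun s : Fin (dC m r na nb) × Fin (dC m r na nb) =>
          (YC p (r * ((p - 1) / m)) ((m - r) * ((p - 1) / m)) (dC m r na nb) (dC m r na nb)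
            (a.map (mapRingHom φ)) (b.map (mapRingHom φ)) s.1 s.2).eval t) G = 0) →
        (T.card : ℝ) ≤ ε * p := by
  by_cases hm : 2 * r = m
  · obtain ⟨g, hg⟩ : ∃ g, 2 * g + 1 = na + nb := by
      by_contra hcon
      push Not at hcon
      apply hnd
      have h1 : ∃ c, na + nb = 2 * c := by
        rcases Nat.even_or_odd' (na + nb) with ⟨c, hc | hc⟩
        · exact ⟨c, hc⟩
        · exact absurd hc.symm (hcon c)
      obtain ⟨c, hc⟩ := h1
      have h2 : m - r = r := by omega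
      rw [h2, ← mul_add, hc, ← hm]
      exact ⟨c, by ring⟩
    have hNg : N = 2 * g := by omega
    subst hNg
    have hdg : dC m r na nb = g := by
      unfold dC
      have h2 : m - r = r := by omega
      rw [h2, ← mul_add, ← hg, ← hm]
      have h3 : r * (2 * g + 1) = 2 * r * g + r := by ring
      rw [h3, Nat.mul_add_div (by omega)]
      rw [Nat.div_eq_of_lt (by omega)]
      omega
    exact fewHalf hHalf hIrrHalf wIrr wStrong wTr wG m r na nb g _ hdg hm hr (by omega) hg A a b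
      hgen t₀ x₀ a₁ b₁ hnode L ψ hψ hirr G hG0 ε hε
  · obtain ⟨D, P, S, hFam, hOk⟩ := hData A m r na nb N hr hrm hN hNn a b hgen t₀ x₀ a₁ b₁ hnode
    have k1 := famC_map ψ hψ hFam
    have k2 := Pool.Agent.Helper62.CX.ok_inj D hOk ψ hψ
    have k3 := hIrr L m r na nb N hr hrm (by omega) _ _ _ _ _ k1 k2 hirr
    have k4 : N = 2 ∨ Odd N ∨ NoBil L (D.map ψ).B := by
      rcases hor with h | h | h | h
      · exact absurd h hm
      · exact Or.inl h
      · exact Or.inr (Or.inl h)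
      · exact Or.inr (Or.inr (hBil L m r na nb N hr hrm (by omega) _ _ _ _ _ k1 k2 k3 h))
    have k5 := hStrong L N hN _ k2 k3 k4
    have k6 := hTr A N D hOk L (FractionRing A) ψ _ hψ
      (IsFractionRing.injective A (FractionRing A)) k5
    exact hG m r na nb N hr hrm hnd hN hna hnb A a b D P S hFam hOk k6 G hG0 ε hε

end Pool.Agent.Helper4.CX
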