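import Mathlib
import Pool.Agent.Helper91.CX.Stm

/-!
Package P1 of project CX: circle integrals which depend holomorphically on a parameter, and
directional derivatives of holomorphic functions of several variables are holomorphic.
-/

set_option autoImplicit false

namespace Pool.Agent.Helper4.CX

open Metric Set Topology Filter MeasureTheory Pool.Agent.Helper91.CX

/-- measurability of the derivative with respect to a parameter -/
theorem meas_deriv {n : ℕ} {α : Type*} [MeasurableSpace α] (μ : Measure α)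
    (g : (Fin n → ℂ) → α → ℂ) (g' : α → (Fin n → ℂ) →L[ℂ] ℂ) (z₀ : Fin n → ℂ)
    (hg : ∀ᶠ z in 𝓝 z₀, AEStronglyMeasurable (g z) μ)
    (hd : ∀ᵐ a ∂μ, HasFDerivAt (g · a) (g' a) z₀) : AEStronglyMeasurable g' μ := by
  have h1 : ∀ v : Fin n → ℂ, AEStronglyMeasurable (fun a => g' a v) μ := by
    intro v
    have hlim : Tendsto (fun k : ℕ => z₀ + ((k : ℂ))⁻¹ • v) atTop (𝓝 z₀) := by
      have h : Tendsto (fun k : ℕ => ((k : ℂ))⁻¹) atTop (𝓝 0) :=
        tendsto_inv_atTop_nhds_zero_nat
      have h2 := (h.smul (tendsto_const_nhds (x := v))).const_add z₀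
      simpa using h2
    obtain ⟨k₀, hk₀⟩ := eventually_atTop.1 (hlim.eventually hg)
    refine aestronglyMeasurable_of_tendsto_ae (atTop : Filter ℕ)
      (f := fun k a => ((k + k₀ : ℕ) : ℂ) • (g (z₀ + (((k + k₀ : ℕ) : ℂ))⁻¹ • v) a - g z₀ a)) ?_ ?_
    · intro k
      exact (AEStronglyMeasurable.sub (hk₀ (k + k₀) (by omega)) hg.self_of_nhds).const_smul
        (((k + k₀ : ℕ) : ℂ))
    · filter_upwards [hd] with a ha
      refine ha.lim v ?_
      have : Tendsto (fun k : ℕ => ((k + k₀ : ℕ) : ℝ)) atTop atTop :=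
        tendsto_natCast_atTop_atTop.comp (tendsto_add_atTop_nat k₀)
      refine this.congr fun k => ?_
      rw [Complex.norm_natCast]
  have h2 : g' = fun a => ∑ i : Fin n, (g' a (Pi.single i 1)) •
      (ContinuousLinearMap.proj i : (Fin n → ℂ) →L[ℂ] ℂ) := by
    funext a
    ext v
    simp only [_root_.sum_apply, _root_.smul_apply,
      ContinuousLinearMap.proj_apply, smul_eq_mul]
    conv_lhs => rw [pi_eq_sum_univ' v]
    rw [map_sum]
    refine Finset.sum_congr rfl fun i _ => ?_
    rw [map_smul, smul_eq_mul, mul_comm]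
  rw [h2]
  refine Finset.aestronglyMeasurable_fun_sum _ fun i _ => ?_
  exact (h1 _).smul_const _

theorem par : S_Par := by
  intro n F U r hr hU hc hd z₀ hz₀
  obtain ⟨ρ, hρ, hρU⟩ := Metric.isOpen_iff.1 hU z₀ hz₀
  have hsub : closedBall z₀ (ρ / 2) ⊆ U :=
    (closedBall_subset_ball (by linarith)).trans hρU
  have hK : IsCompact (closedBall z₀ (ρ / 2) ×ˢ sphere (0 : ℂ) r) :=
    (isCompact_closedBall _ _).prod (isCompact_sphere _ _)
  obtain ⟨C, hC⟩ := hK.exists_bound_of_continuousOn
    (hc.mono (prod_mono hsub subset_rfl))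
  have hcirc : ∀ θ : ℝ, circleMap 0 r θ ∈ sphere (0 : ℂ) r := fun θ => circleMap_mem_sphere _ hr.le _
  have hzc : z₀ ∈ closedBall z₀ (ρ / 2) := mem_closedBall_self (by linarith)
  have hcont : ∀ z ∈ U, Continuous fun θ : ℝ => deriv (circleMap 0 r) θ • F z (circleMap 0 r θ) := by
    intro z hz
    have h1 : Continuous fun θ : ℝ => F z (circleMap 0 r θ) := by
      have : Continuous fun θ : ℝ => ((z, circleMap 0 r θ) : (Fin n → ℂ) × ℂ) :=
        continuous_const.prodMk (continuous_circleMap _ _)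
      exact hc.comp_continuous this fun θ => ⟨hz, hcirc θ⟩
    have h2 : Continuous fun θ : ℝ => deriv (circleMap 0 r) θ := by
      simp only [deriv_circleMap]
      fun_prop
    exact h2.smul h1
  have key : HasFDerivAt (fun z => ∫ θ in Ioc 0 (2 * Real.pi),
      deriv (circleMap 0 r) θ • F z (circleMap 0 r θ))
      (∫ θ in Ioc 0 (2 * Real.pi), deriv (circleMap 0 r) θ •
        fderiv ℂ (fun z => F z (circleMap 0 r θ)) z₀) z₀ := by
    have hderiv : ∀ θ : ℝ, HasFDerivAt
        (fun z => deriv (circleMap 0 r) θ • F z (circleMap 0 r θ))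
        (deriv (circleMap 0 r) θ • fderiv ℂ (fun z => F z (circleMap 0 r θ)) z₀) z₀ := by
      intro θ
      have := ((hd _ (hcirc θ)).differentiableAt (hU.mem_nhds hz₀)).hasFDerivAt
      exact this.const_smul (deriv (circleMap 0 r) θ)
    have hmeas : ∀ᶠ z in 𝓝 z₀, AEStronglyMeasurable
        (fun θ : ℝ => deriv (circleMap 0 r) θ • F z (circleMap 0 r θ))
        (volume.restrict (Ioc 0 (2 * Real.pi))) := by
      filter_upwards [hU.mem_nhds hz₀] with z hz
      exact (hcont z hz).aestronglyMeasurable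
    refine (hasFDerivAt_integral_of_dominated_loc_of_lip' (s := ball z₀ (ρ / 2))
      (bound := fun _ => r * ((C + C) / (ρ / 2))) (ball_mem_nhds _ (by linarith)) ?_ ?_ ?_ ?_ ?_ ?_).2
    · intro z hz
      exact (hcont z (hsub (ball_subset_closedBall hz))).aestronglyMeasurable
    · exact ((hcont z₀ hz₀).intervalIntegrable 0 (2 * Real.pi)).1
    · exact meas_deriv _ _ _ z₀ hmeas (Eventually.of_forall hderiv)
    · refine Eventually.of_forall fun θ z hz => ?_
      have hS := Complex.dist_le_div_mul_dist_of_mapsTo_ball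
        (f := fun z => F z (circleMap 0 r θ)) (c := z₀) (R₁ := ρ / 2) (R₂ := C + C)
        ((hd _ (hcirc θ)).mono (ball_subset_closedBall.trans hsub)) ?_ hz
      · rw [← smul_sub, norm_smul]
        have h1 : ‖deriv (circleMap 0 r) θ‖ = r := by
          rw [deriv_circleMap]
          simp [abs_of_pos hr]
        rw [h1, mul_assoc]
        refine mul_le_mul_of_nonneg_left ?_ hr.le
        simpa [dist_eq_norm] using hS
      · intro w hw
        rw [mem_closedBall, dist_eq_norm]
        exact (norm_sub_le _ _).trans (add_le_add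
          (hC (w, _) ⟨ball_subset_closedBall hw, hcirc θ⟩) (hC (z₀, _) ⟨hzc, hcirc θ⟩))
    · exact integrable_const _
    · exact Eventually.of_forall hderiv
  have h3 : (fun z => ∮ ζ in C(0, r), F z ζ) = fun z => ∫ θ in Ioc 0 (2 * Real.pi),
      deriv (circleMap 0 r) θ • F z (circleMap 0 r θ) := by
    funext z
    rw [circleIntegral, intervalIntegral.integral_of_le (by positivity)]
  rw [h3]
  exact key.differentiableAt.differentiableWithinAt

theorem der : S_Der := by
  intro n f U hU hf v z₀ hz₀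
  obtain ⟨ε, hε, hεU⟩ := Metric.isOpen_iff.1 hU z₀ hz₀
  set ρ : ℝ := ε / (4 * (‖v‖ + 1)) with hρdef
  have hv : 0 < ‖v‖ + 1 := by positivity
  have hρ : 0 < ρ := by positivity
  have hin : ∀ z ∈ ball z₀ (ε / 2), ∀ ζ : ℂ, ‖ζ‖ < 2 * ρ → z + ζ • v ∈ U := by
    intro z hz ζ hζ
    apply hεU
    rw [mem_ball, dist_eq_norm] at hz ⊢
    have h1 : ‖ζ • v‖ ≤ 2 * ρ * (‖v‖ + 1) := by
      rw [norm_smul]
      exact mul_le_mul hζ.le (by linarith) (norm_nonneg _) (by positivity)
    have h2 : 2 * ρ * (‖v‖ + 1) = ε / 2 := by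
      rw [hρdef]; field_simp; ring
    calc ‖z + ζ • v - z₀‖ = ‖(z - z₀) + ζ • v‖ := by congr 1; abel
      _ ≤ ‖z - z₀‖ + ‖ζ • v‖ := norm_add_le _ _
      _ < ε := by linarith
  have hcauchy : ∀ z ∈ ball z₀ (ε / 2), fderiv ℂ f z v =
      (2 * Real.pi * Complex.I : ℂ)⁻¹ • ∮ ζ in C(0, ρ), ((ζ - 0) ^ 2)⁻¹ • f (z + ζ • v) := by
    intro z hz
    have hzU : z ∈ U := by
      have := hin z hz 0 (by simpa using hρ)
      simpa using this
    have hd1 : DifferentiableOn ℂ (fun ζ : ℂ => f (z + ζ • v)) (ball 0 (2 * ρ)) := by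
      refine hf.comp (f := fun ζ : ℂ => z + ζ • v) (t := U) ?_ ?_
      · exact ((differentiable_id.smul_const v).const_add z).differentiableOn
      · intro ζ hζ
        exact hin z hz ζ (by simpa using hζ)
    have h := Complex.two_pi_I_inv_smul_circleIntegral_sub_sq_inv_smul_of_differentiable
      (isOpen_ball (x := (0 : ℂ)) (ε := 2 * ρ)) (c := 0) (w₀ := 0) (R := ρ)
      (closedBall_subset_ball (by linarith)) hd1 (mem_ball_self hρ)
    rw [h]
    have h1 : HasDerivAt (fun ζ : ℂ => z + ζ • v) v 0 := by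
      have := ((hasDerivAt_id (0 : ℂ)).smul_const v).const_add z
      simpa using this
    have h2 : HasFDerivAt f (fderiv ℂ f z) (z + (0 : ℂ) • v) := by
      have := (hf.differentiableAt (hU.mem_nhds hzU)).hasFDerivAt
      simpa using this
    exact (h2.comp_hasDerivAt (0 : ℂ) h1).deriv.symm
  have hpar := par n (fun z ζ => ((ζ - 0) ^ 2)⁻¹ • f (z + ζ • v)) (ball z₀ (ε / 2)) ρ hρ isOpen_ball
    ?_ ?_
  · have h1 : DifferentiableOn ℂ (fun z => fderiv ℂ f z v) (ball z₀ (ε / 2)) :=
      (hpar.const_smul ((2 * Real.pi * Complex.I : ℂ)⁻¹)).congr hcauchy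
    exact (h1.differentiableAt (ball_mem_nhds _ (by linarith))).differentiableWithinAt
  · refine ContinuousOn.fun_smul ?_ ?_
    · refine ContinuousOn.inv₀ (by fun_prop) ?_
      rintro ⟨z, ζ⟩ ⟨_, hζ⟩
      have : ζ ≠ 0 := ne_of_mem_sphere hζ hρ.ne'
      simpa using this
    · refine hf.continuousOn.comp (by fun_prop) ?_
      rintro ⟨z, ζ⟩ ⟨hz, hζ⟩
      refine hin z hz ζ ?_
      have : ‖ζ‖ = ρ := by simpa using hζ
      linarith
  · intro ζ hζ
    refine DifferentiableOn.fun_const_smul ?_ _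
    refine hf.comp (f := fun z : Fin n → ℂ => z + ζ • v) (t := U) ?_ ?_
    · exact (differentiable_id.add_const _).differentiableOn
    · intro z hz
      refine hin z hz ζ ?_
      have : ‖ζ‖ = ρ := by simpa using hζ
      linarith

end Pool.Agent.Helper4.CX
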